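import Pool.Agent.Lib.MP_8ae0c1_agS.Trans

set_option autoImplicit false

namespace Pool.Agent.Results.MP_8ae0c1_ag.ManinFails

open Pool.Agent.Lib.MP_8ae0c1_agS

/-- Geometric Manin's Conjecture for del Pezzo fibrations is false: it fails for the fibration
`X -> B` with generic fibre `x w^2 = v0^4 + v1^4 + v2^4` over the elliptic curve
`B : y^2 = x (x - 1) (x - l)`, `l` transcendental, and for all sufficiently large `q`.
`Man i` is any set of components of the space of sections of height `i` which contains all
components whose sections do not lie in one surface, for example the set of Manin components.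
The counting function is finite, but its quotient by `q ^ d` has no finite limit (`X_eta` has the
Picard rank 1). -/
theorem result (l : ℂ) (hl : Transcendental ℚ l) (Man : (i : ℕ) → Set (Set (SecD l i)))
    (hMan : ∀ i, Man i ⊆ irreducibleComponents (SecD l i))
    (hSurf : ∀ i, ∀ M ∈ irreducibleComponents (SecD l i), ¬ InSurface l i M → M ∈ Man i) :
    (∀ q : ℝ, 1 < q → ∀ d : ℕ, Ncount l Man q d < ⊤) ∧
      ∃ Q : ℝ, ∀ q : ℝ, 1 < q → Q ≤ q → ¬ ∃ C : ℝ,
        Filter.Tendsto (fun d : ℕ => Ncount l Man q d / ENNReal.ofReal (q ^ d)) Filter.atTop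
          (nhds (ENNReal.ofReal C)) :=
  ⟨fun q hq d => ncount_lt_top l hl Man hMan q hq d, no_limit l hl Man hSurf⟩

end Pool.Agent.Results.MP_8ae0c1_ag.ManinFails
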